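import Pool.Agent.H20.Sof2

namespace Pool.Agent.Results.MP_743583_al.FreeProd

open Pool.Agent.H20.Sof

theorem result (I X : Type) (G : I → Type) [∀ i, Group (G i)] (α : ∀ i, G i →* Equiv.Perm X)
    (hα : ∀ i, Sofic (α i)) : Sofic (Monoid.CoprodI.lift α) :=
  main α hα

end Pool.Agent.Results.MP_743583_al.FreeProd
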